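import Pool.Agent.Y437.HW.Fin

set_option autoImplicit false

/-!
# Closed 4-manifolds with right-angled Artin fundamental groups, and all free products of free
abelian groups

`M` is a closed connected topological 4-manifold, orientable or not; `χ(M)` is computed from
singular cohomology with coefficients in `ℤ/2`.

* If `π₁(M)` is the right-angled Artin group of a finite graph `Γ` with `n` vertices and `m` edges
  then `χ(M) ≥ 2 - 2 n + 2 m - rank A_w` for some function `w` on the complete subgraphs of `Γ` with
  four vertices; the matrix `A_w` over `ℤ/2` has the entry `w (e ∪ f)` at two opposite edges `e`,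
  `f` of a complete subgraph with four vertices and zeros elsewhere. In particular
  `χ(M) ≥ 2 - 2 n + m + o(Γ)`, where `o(Γ)` is the number of components with an odd number of
  elements of the graph on the edges of `Γ` in which opposite edges of complete subgraphs with
  four vertices are adjacent.
* If `π₁(M) ≅ ℤ^{n₁} * ⋯ * ℤ^{n_k}`, for any `k` and any ranks, then
  `χ(M) - 2 ≥ (q(n₁) - 2) + ⋯ + (q(n_k) - 2)` with `q(3) = 2`, `q(5) = 6` and
  `q(n) = 2 - 2 n + C(n,2) + (C(n,2) mod 2)` for the other `n`.

The case `k = 2`, `n₁ = n₂ = 6` is `q(ℤ⁶ * ℤ⁶) ≥ 10`.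
-/

namespace Pool.Agent.Results.MP_e039bb_gt.ArtinGroups

open Pool.Agent.Helper158.PD

universe u

variable (X : Type u) [TopologicalSpace X]

/-- Singular `n`-simplices of a space `X`: continuous maps from the standard `n`-simplex. -/
abbrev Simplex (n : ℕ) : Type u := C(stdSimplex ℝ (Fin (n + 1)), X)

variable {X} in
/-- The `i`-th face of a singular `(n+1)`-simplex: precomposition with the affine inclusion of the
standard `n`-simplex as the face opposite to the `i`-th vertex. -/
noncomputable def face (n : ℕ) (i : Fin (n + 2)) (σ : Simplex X (n + 1)) : Simplex X n :=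
  σ.comp ⟨stdSimplex.map i.succAbove, stdSimplex.continuous_map _⟩

/-- The coboundary of singular cochains with coefficients in `ℤ/2`:
`(δ f)(σ) = ∑ i, f (i-th face of σ)`. -/
noncomputable def coboundary (n : ℕ) :
    (Simplex X n → ZMod 2) →ₗ[ZMod 2] (Simplex X (n + 1) → ZMod 2) where
  toFun f σ := ∑ i : Fin (n + 2), f (face n i σ)
  map_add' f g := by
    funext σ
    exact Finset.sum_add_distrib
  map_smul' r f := by
    funext σ
    exact (Finset.smul_sum (r := r) (f := fun i => f (face n i σ))).symm

/-- Singular `n`-cocycles mod 2. -/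
noncomputable def cocycles (n : ℕ) : Submodule (ZMod 2) (Simplex X n → ZMod 2) :=
  LinearMap.ker (coboundary X n)

/-- Singular `n`-coboundaries mod 2: zero for `n = 0`, the image of the coboundary otherwise. -/
noncomputable def coboundaries : ∀ n : ℕ, Submodule (ZMod 2) (Simplex X n → ZMod 2)
  | 0 => ⊥
  | (n + 1) => LinearMap.range (coboundary X n)

/-- Singular cohomology `H^n(X; ℤ/2)`: cocycles modulo coboundaries. -/
abbrev Cohomology (n : ℕ) : Type u :=
  cocycles X n ⧸ (coboundaries X n).submoduleOf (cocycles X n)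

/-- The Euler characteristic `∑ n, (-1)^n dim H^n(X; ℤ/2)`. -/
noncomputable def eulerChar : ℤ :=
  ∑ᶠ n : ℕ, (-1 : ℤ) ^ n * (Module.finrank (ZMod 2) (Cohomology X n) : ℤ)

/-- The right-angled Artin group of a graph `Γ`: the generators are the vertices, the relations say
that adjacent vertices commute. -/
abbrev ArtinGroup {V : Type} (Γ : SimpleGraph V) : Type :=
  PresentedGroup {r : FreeGroup V | ∃ i j, Γ.Adj i j ∧
    r = FreeGroup.of i * FreeGroup.of j * (FreeGroup.of i)⁻¹ * (FreeGroup.of j)⁻¹}

/-- The edges of a graph with vertices `0, …, n - 1`: adjacent pairs `i < j`. -/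
abbrev Edge {n : ℕ} (Γ : SimpleGraph (Fin n)) : Type :=
  {p : Fin n × Fin n // p.1 < p.2 ∧ Γ.Adj p.1 p.2}

section graph

variable {n : ℕ} {Γ : SimpleGraph (Fin n)}

/-- The two vertices of an edge. -/
def vertices (e : Edge Γ) : Finset (Fin n) := {e.1.1, e.1.2}

/-- The edges `e`, `f` are opposite edges of a complete subgraph with four vertices: every vertex
of `e` is adjacent to every vertex of `f`. -/
def Opposite (e f : Edge Γ) : Prop := ∀ a ∈ vertices e, ∀ b ∈ vertices f, Γ.Adj a b

instance [DecidableRel Γ.Adj] (e f : Edge Γ) : Decidable (Opposite e f) := by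
  unfold Opposite
  infer_instance

/-- The graph on the edges of `Γ` in which two edges are adjacent if they are opposite edges of a
complete subgraph with four vertices. -/
def oppositeGraph (Γ : SimpleGraph (Fin n)) : SimpleGraph (Edge Γ) where
  Adj e f := Opposite e f
  symm := ⟨fun _ _ h a ha b hb => (h b hb a ha).symm⟩
  loopless := ⟨fun e h => (h e.1.1 (by simp [vertices]) e.1.1 (by simp [vertices])).ne rfl⟩

/-- The matrix over `ℤ/2` indexed by the edges of `Γ`, with the entry `w (e ∪ f)` for opposite
edges `e`, `f` of a complete subgraph with four vertices, and zeros elsewhere. -/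
def cliqueMatrix (Γ : SimpleGraph (Fin n)) [DecidableRel Γ.Adj] (w : Finset (Fin n) → ZMod 2) :
    Matrix (Edge Γ) (Edge Γ) (ZMod 2) :=
  Matrix.of fun e f => if Opposite e f then w (vertices e ∪ vertices f) else 0

end graph

/-- The function `q`: `q(3) = 2`, `q(5) = 6`, and `q(n) = 2 - 2 n + C(n,2) + (C(n,2) mod 2)` for
the other `n`. -/
def q (n : ℕ) : ℤ :=
  if n = 3 then 2 else if n = 5 then 6 else 2 - 2 * (n : ℤ) + n.choose 2 + (n.choose 2 % 2 : ℕ)

theorem coboundary_eq (n : ℕ) : coboundary X n = dl n := by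
  apply LinearMap.ext
  intro f
  funext σ
  exact (dl_apply n f σ).symm

theorem cocycles_eq (n : ℕ) : cocycles X n = Cy X n := by
  rw [cocycles, coboundary_eq]
  rfl

theorem coboundaries_eq (n : ℕ) : coboundaries X n = Bd X n := by
  cases n with
  | zero => rfl
  | succ n =>
    change LinearMap.range (coboundary X n) = LinearMap.range (dl n)
    rw [coboundary_eq]

theorem eulerChar_eq : eulerChar X = Pool.Agent.Y437.HW.euler X := by
  unfold eulerChar Pool.Agent.Y437.HW.euler
  congr 1
  funext n
  have : Module.finrank (ZMod 2) (Cohomology X n) = Module.finrank F2 (Hc X n) := by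
    unfold Cohomology Hc
    rw [cocycles_eq, coboundaries_eq]
  rw [this]

theorem finite_cohomology (M : Type u) [TopologicalSpace M] [T2Space M] [CompactSpace M]
    [ChartedSpace (EuclideanSpace ℝ (Fin 4)) M] (n : ℕ) :
    Module.Finite (ZMod 2) (Cohomology M n) := by
  obtain ⟨I, hI, hnd, hvan, hfin⟩ := poincare M 3
  have h : Module.Finite F2 (Hc M n) := hfin n
  have key : Cohomology M n = Hc M n ∧ Module.Finite (ZMod 2) (Cohomology M n) := by
    unfold Cohomology
    rw [cocycles_eq, coboundaries_eq]
    exact ⟨rfl, h⟩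
  exact key.2

theorem vanishing_cohomology (M : Type u) [TopologicalSpace M] [T2Space M] [CompactSpace M]
    [ChartedSpace (EuclideanSpace ℝ (Fin 4)) M] (n : ℕ) (hn : 4 < n) :
    Subsingleton (Cohomology M n) := by
  obtain ⟨I, hI, hnd, hvan, hfin⟩ := poincare M 3
  have h : cocycles M n = coboundaries M n := by
    rw [cocycles_eq, coboundaries_eq]
    exact hvan n hn
  have hs : ∀ x : Cohomology M n, x = 0 := by
    intro x
    obtain ⟨a, rfl⟩ := Submodule.Quotient.mk_surjective _ x
    rw [Submodule.Quotient.mk_eq_zero]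
    exact (h ▸ a.2 : (a : Simplex M n → ZMod 2) ∈ coboundaries M n)
  exact ⟨fun x y => by rw [hs x, hs y]⟩

theorem q_eq (n : ℕ) : q n - 2 = -2 * (n : ℤ) + n.choose 2 + Pool.Agent.Y437.HW.kk n := by
  unfold q Pool.Agent.Y437.HW.kk
  by_cases h3 : n = 3
  · subst h3
    decide
  · by_cases h5 : n = 5
    · subst h5
      decide
    · rw [if_neg h3, if_neg h3, if_neg h5, if_neg h5]
      ring

/-- **Main theorem.** Let `M` be a closed connected topological 4-manifold, orientable or not.
Its mod 2 cohomology is finite dimensional in every degree and zero above degree four, and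

* if `π₁(M)` is the right-angled Artin group of a graph `Γ` with `n` vertices then
  `χ(M) ≥ 2 - 2 n + 2 |E(Γ)| - rank A_w` for some `w`, and
  `χ(M) ≥ 2 - 2 n + |E(Γ)| + o(Γ)`, where `o(Γ)` is the number of odd components of the graph of
  opposite edges;
* if `π₁(M) ≅ ℤ^{n₁} * ⋯ * ℤ^{n_k}` then `χ(M) - 2 ≥ (q(n₁) - 2) + ⋯ + (q(n_k) - 2)`. -/
theorem result (M : Type u) [TopologicalSpace M] [T2Space M] [CompactSpace M] [ConnectedSpace M]
    [ChartedSpace (EuclideanSpace ℝ (Fin 4)) M] (x₀ : M) :
    (∀ n : ℕ, Module.Finite (ZMod 2) (Cohomology M n)) ∧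
    (∀ n : ℕ, 4 < n → Subsingleton (Cohomology M n)) ∧
    (∀ (n : ℕ) (Γ : SimpleGraph (Fin n)) [DecidableRel Γ.Adj],
      Nonempty (FundamentalGroup M x₀ ≃* ArtinGroup Γ) →
        (∃ w : Finset (Fin n) → ZMod 2,
          2 - 2 * (n : ℤ) + 2 * Fintype.card (Edge Γ) - (cliqueMatrix Γ w).rank ≤ eulerChar M) ∧
        2 - 2 * (n : ℤ) + Fintype.card (Edge Γ) + (oppositeGraph Γ).oddComponents.ncard ≤
          eulerChar M) ∧
    ∀ (k : ℕ) (n : Fin k → ℕ),
      Nonempty (FundamentalGroup M x₀ ≃*
        Monoid.CoprodI fun i => Multiplicative (Fin (n i) → ℤ)) →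
      2 + ∑ i, (q (n i) - 2) ≤ eulerChar M := by
  refine ⟨finite_cohomology M, vanishing_cohomology M, ?_, ?_⟩
  · intro n Γ _ h
    obtain ⟨e⟩ := h
    rw [eulerChar_eq]
    exact Pool.Agent.Y437.HW.raag_bound Γ M x₀ e
  · intro k n h
    obtain ⟨e⟩ := h
    rw [eulerChar_eq]
    simp only [q_eq]
    exact Pool.Agent.Y437.HW.free_bound M x₀ n e

end Pool.Agent.Results.MP_e039bb_gt.ArtinGroups
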